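import Pool.Agent.CRT.Stmts

/-!
Row DUA of the squad CRT: the energy of points with the gap property.
-/

set_option autoImplicit false

namespace Pool.Agent.CRT.H34

open Set Filter Topology MeasureTheory Pool.Agent.CRT

theorem bx_ind (r c y : ℝ) :
    bx r (y - c) = (Icc (c - r) (c + r)).indicator (fun _ => 1 / (2 * r)) y := by
  unfold bx
  by_cases h : |y - c| ≤ r
  · rw [if_pos h, Set.indicator_of_mem]
    rw [abs_le] at h
    exact ⟨by linarith [h.1], by linarith [h.2]⟩
  · rw [if_neg h, Set.indicator_of_notMem]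
    intro hm
    apply h
    rw [abs_le]
    exact ⟨by linarith [hm.1], by linarith [hm.2]⟩

theorem bx_meas (r c : ℝ) : Measurable (fun y => bx r (y - c)) := by
  have h : (fun y => bx r (y - c)) =
      (Icc (c - r) (c + r)).indicator (fun _ => 1 / (2 * r)) := funext (bx_ind r c)
  rw [h]
  exact measurable_const.indicator measurableSet_Icc

theorem bx_int (r c : ℝ) : Integrable (fun y => bx r (y - c)) := by
  have h : (fun y => bx r (y - c)) =
      (Icc (c - r) (c + r)).indicator (fun _ => 1 / (2 * r)) := funext (bx_ind r c)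
  rw [h, integrable_indicator_iff measurableSet_Icc]
  exact integrableOn_const (by rw [Real.volume_Icc]; exact ENNReal.ofReal_ne_top)

theorem bx_abs {r : ℝ} (hr : 0 < r) (y : ℝ) : |bx r y| ≤ 1 / (2 * r) := by
  unfold bx
  have h : 0 ≤ 1 / (2 * r) := by positivity
  split_ifs
  · rw [abs_of_nonneg h]
  · rw [abs_zero]; exact h

theorem bx_set (r c : ℝ) {Φ : Set ℝ} (hΦ : MeasurableSet Φ) :
    ∫ y in Φ, bx r (y - c) = (volume (Φ ∩ Icc (c - r) (c + r))).toReal * (1 / (2 * r)) := by
  have h : (fun y => bx r (y - c)) =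
      (Icc (c - r) (c + r)).indicator (fun _ => 1 / (2 * r)) := funext (bx_ind r c)
  rw [h, setIntegral_indicator measurableSet_Icc, setIntegral_const, smul_eq_mul]
  rfl

theorem d_ua : DuaStmt := by
  intro κ Y hκ hY
  refine ⟨(2 / 3) ^ 2 / (2 * (Y + κ)), by positivity, ?_⟩
  intro T hT ι _ Q G y hGQ hyY hgap
  have hT0 : 0 < T := lt_of_lt_of_le one_pos hT
  obtain ⟨a, ha⟩ : ∃ a : ℝ, a = κ / T := ⟨_, rfl⟩
  have ha0 : 0 < a := by rw [ha]; positivity
  have haκ : a ≤ κ := by
    rw [ha, div_le_iff₀ hT0]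
    nlinarith
  have h6 : 6 * κ / T = 6 * a := by rw [ha]; ring
  have h14 : 14 * κ / T = 14 * a := by rw [ha]; ring
  rw [← ha, h14] at hgap
  -- the functions
  let g : ι → ℝ → ℝ := fun s z => ps κ T (z - y s)
  have hg : ∀ s z, g s z = bx a (z - y s) - bx (6 * a) (z - y s) := by
    intro s z
    show ps κ T (z - y s) = _
    unfold ps
    rw [← ha, h6]
  have hgf : ∀ s, g s = fun z => bx a (z - y s) - bx (6 * a) (z - y s) := fun s => funext (hg s)
  have hgi : ∀ s, Integrable (g s) := by
    intro s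
    rw [hgf]
    exact (bx_int a (y s)).sub (bx_int (6 * a) (y s))
  have hgm : ∀ s, Measurable (g s) := by
    intro s
    rw [hgf]
    exact (bx_meas a (y s)).sub (bx_meas (6 * a) (y s))
  have hgb : ∀ s z, |g s z| ≤ 1 / a := by
    intro s z
    rw [hg]
    have h1 := bx_abs ha0 (z - y s)
    have h2 := bx_abs (show 0 < 6 * a by positivity) (z - y s)
    have h3 : 1 / (2 * (6 * a)) ≤ 1 / (2 * a) := by
      apply one_div_le_one_div_of_le (by positivity)
      nlinarith
    have h4 : 1 / (2 * a) + 1 / (2 * a) = 1 / a := by field_simp; norm_num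
    have h5 := abs_sub (bx a (z - y s)) (bx (6 * a) (z - y s))
    calc |bx a (z - y s) - bx (6 * a) (z - y s)|
        ≤ |bx a (z - y s)| + |bx (6 * a) (z - y s)| := h5
      _ ≤ 1 / a := by linarith
  have hgg : ∀ s s', Integrable (fun z => g s z * g s' z) := by
    intro s s'
    refine ((hgi s').norm.const_mul (1 / a)).mono' ?_ ?_
    · exact ((hgm s).mul (hgm s')).aestronglyMeasurable
    · refine Eventually.of_forall fun z => ?_
      rw [norm_mul, Real.norm_eq_abs]
      exact mul_le_mul_of_nonneg_right (hgb s z) (norm_nonneg _)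
  have hPS : ∀ s s', ∫ z, g s z * g s' z = PS κ T (y s - y s') := by
    intro s s'
    unfold PS
    have h1 := integral_sub_right_eq_self
      (fun z => ps κ T z * ps κ T (z + (y s - y s'))) (μ := volume) (y s)
    rw [← h1]
    refine integral_congr_ae (Eventually.of_forall fun z => ?_)
    show ps κ T (z - y s) * ps κ T (z - y s') = ps κ T (z - y s) * ps κ T (z - y s + (y s - y s'))
    rw [show z - y s + (y s - y s') = z - y s' by ring]
  let F : ℝ → ℝ := fun z => ∑ s ∈ Q, g s z
  have hF2 : ∀ z, F z * F z = ∑ s ∈ Q, ∑ s' ∈ Q, g s z * g s' z := by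
    intro z
    show (∑ s ∈ Q, g s z) * (∑ s ∈ Q, g s z) = _
    rw [Finset.sum_mul_sum]
  have hF2i : Integrable (fun z => F z * F z) := by
    have : (fun z => F z * F z) = fun z => ∑ s ∈ Q, ∑ s' ∈ Q, g s z * g s' z := funext hF2
    rw [this]
    exact integrable_finset_sum _ fun s _ => integrable_finset_sum _ fun s' _ => hgg s s'
  have hE : ∫ z, F z * F z = ∑ s ∈ Q, ∑ s' ∈ Q, PS κ T (y s - y s') := by
    have : (fun z => F z * F z) = fun z => ∑ s ∈ Q, ∑ s' ∈ Q, g s z * g s' z := funext hF2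
    rw [this, integral_finset_sum _ fun s _ => integrable_finset_sum _ fun s' _ => hgg s s']
    refine Finset.sum_congr rfl fun s _ => ?_
    rw [integral_finset_sum _ fun s' _ => hgg s s']
    exact Finset.sum_congr rfl fun s' _ => hPS s s'
  have hFi : Integrable F := integrable_finset_sum _ fun s _ => hgi s
  rw [← hE]
  refine ⟨integral_nonneg fun z => mul_self_nonneg _, ?_⟩
  intro hcard
  -- the set
  let Φ : Set ℝ := ⋃ s ∈ G, Icc (y s - a) (y s + a)
  have hΦm : MeasurableSet Φ := Finset.measurableSet_biUnion G fun s _ => measurableSet_Icc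
  have hΦs : Φ ⊆ Icc (-(Y + κ)) (Y + κ) := by
    intro z hz
    obtain ⟨s, hs, hz⟩ := mem_iUnion₂.1 hz
    have h1 := abs_le.1 (hyY s (hGQ hs))
    exact ⟨by linarith [hz.1, h1.1], by linarith [hz.2, h1.2]⟩
  have hfin : ∀ A : Set ℝ, volume (Φ ∩ A) ≠ ⊤ := by
    intro A
    refine ne_of_lt (lt_of_le_of_lt (measure_mono (inter_subset_left.trans hΦs)) ?_)
    rw [Real.volume_Icc]
    exact ENNReal.ofReal_lt_top
  have hΦv : (volume Φ).toReal ≤ 2 * (Y + κ) := by
    have h1 := measure_mono (μ := volume) hΦs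
    rw [Real.volume_Icc] at h1
    have h2 := ENNReal.toReal_mono ENNReal.ofReal_ne_top h1
    rw [ENNReal.toReal_ofReal (by linarith)] at h2
    linarith
  have hΦf : volume Φ ≠ ⊤ := by
    have := hfin univ
    rwa [inter_univ] at this
  -- each term
  have hsmall : ∀ s, (volume (Φ ∩ Icc (y s - 6 * a) (y s + 6 * a))).toReal ≤ 3 * a := by
    intro s
    let R : Finset ι := G.filter fun s' => |y s' - y s| ≤ 7 * a
    have hsub : ∀ z ∈ Φ ∩ Icc (y s - 6 * a) (y s + 6 * a), ∃ s' ∈ R,
        z ∈ Icc (y s' - a) (y s' + a) := by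
      rintro z ⟨hz, hz'⟩
      obtain ⟨s', hs', hz⟩ := mem_iUnion₂.1 hz
      refine ⟨s', Finset.mem_filter.2 ⟨hs', ?_⟩, hz⟩
      rw [abs_le]
      exact ⟨by linarith [hz.1, hz.2, hz'.1, hz'.2], by linarith [hz.1, hz.2, hz'.1, hz'.2]⟩
    rcases R.eq_empty_or_nonempty with hR | hR
    · have h0 : Φ ∩ Icc (y s - 6 * a) (y s + 6 * a) = ∅ := by
        rw [eq_empty_iff_forall_notMem]
        intro z hz
        obtain ⟨s', hs', -⟩ := hsub z hz
        rw [hR] at hs'
        exact Finset.notMem_empty _ hs'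
      rw [h0, measure_empty, ENNReal.toReal_zero]
      positivity
    · obtain ⟨s₀, hs₀, hmin⟩ := Finset.exists_min_image R y hR
      have hin : Φ ∩ Icc (y s - 6 * a) (y s + 6 * a) ⊆ Icc (y s₀ - a) (y s₀ + 2 * a) := by
        intro z hz
        obtain ⟨s', hs', hz⟩ := hsub z hz
        have h1 := hmin s' hs'
        have h2 := (Finset.mem_filter.1 hs').2
        have h3 := (Finset.mem_filter.1 hs₀).2
        have h4 := hgap s' (Finset.mem_filter.1 hs').1 s₀ (Finset.mem_filter.1 hs₀).1
        have h5 : |y s' - y s₀| ≤ 14 * a := by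
          rw [abs_le] at h2 h3 ⊢
          exact ⟨by linarith [h2.1, h3.2], by linarith [h2.2, h3.1]⟩
        have h6 : |y s' - y s₀| ≤ a := by
          rcases h4 with h4 | h4
          · exact h4
          · exact absurd h4 (not_lt.2 h5)
        have h7 := (abs_le.1 h6).2
        exact ⟨by linarith [hz.1], by linarith [hz.2]⟩
      have h1 := measure_mono (μ := volume) hin
      rw [Real.volume_Icc] at h1
      have h2 := ENNReal.toReal_mono ENNReal.ofReal_ne_top h1
      rw [ENNReal.toReal_ofReal (by linarith)] at h2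
      linarith
  have hterm : ∀ s ∈ Q, (if s ∈ G then (1 : ℝ) else 0) - 1 / 4 ≤ ∫ z in Φ, g s z := by
    intro s _
    have e1 : ∫ z in Φ, g s z = (volume (Φ ∩ Icc (y s - a) (y s + a))).toReal * (1 / (2 * a)) -
        (volume (Φ ∩ Icc (y s - 6 * a) (y s + 6 * a))).toReal * (1 / (2 * (6 * a))) := by
      rw [hgf s, integral_sub (bx_int a (y s)).integrableOn (bx_int (6 * a) (y s)).integrableOn,
        bx_set a (y s) hΦm, bx_set (6 * a) (y s) hΦm]
    rw [e1]
    have e2 : (volume (Φ ∩ Icc (y s - 6 * a) (y s + 6 * a))).toReal * (1 / (2 * (6 * a))) ≤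
        1 / 4 := by
      rw [mul_one_div, div_le_iff₀ (by positivity)]
      linarith [hsmall s]
    have e3 : (if s ∈ G then (1 : ℝ) else 0) ≤
        (volume (Φ ∩ Icc (y s - a) (y s + a))).toReal * (1 / (2 * a)) := by
      split_ifs with hs
      · have h1 : Φ ∩ Icc (y s - a) (y s + a) = Icc (y s - a) (y s + a) := by
          rw [inter_eq_right]
          intro z hz
          exact mem_iUnion₂.2 ⟨s, hs, hz⟩
        rw [h1, Real.volume_Icc, ENNReal.toReal_ofReal (by linarith), mul_one_div,
          le_div_iff₀ (by positivity)]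
        linarith
      · positivity
    linarith
  have hA : 2 / 3 * (Q.card : ℝ) ≤ ∫ z in Φ, F z := by
    have h1 : ∫ z in Φ, F z = ∑ s ∈ Q, ∫ z in Φ, g s z :=
      integral_finset_sum _ fun s _ => (hgi s).integrableOn
    rw [h1]
    refine le_trans ?_ (Finset.sum_le_sum hterm)
    rw [Finset.sum_sub_distrib, Finset.sum_const, nsmul_eq_mul, Finset.sum_ite_mem,
      Finset.inter_eq_right.2 hGQ, Finset.sum_const, nsmul_eq_mul, mul_one]
    linarith
  -- Cauchy-Schwarz
  have hV : 0 < 2 * (Y + κ) := by positivity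
  obtain ⟨A, hAdef⟩ : ∃ A : ℝ, A = ∫ z in Φ, F z := ⟨_, rfl⟩
  rw [← hAdef] at hA
  obtain ⟨lam, hlam⟩ : ∃ lam : ℝ, lam = A / (2 * (Y + κ)) := ⟨_, rfl⟩
  have hA0 : 0 ≤ A := le_trans (by positivity) hA
  have hcs : 0 ≤ (∫ z, F z * F z) - 2 * lam * A + lam ^ 2 * (volume Φ).toReal := by
    have i1 : Integrable (fun z => Φ.indicator F z) := hFi.indicator hΦm
    have i2 : Integrable (fun z => Φ.indicator (fun _ => (1 : ℝ)) z) := by
      rw [integrable_indicator_iff hΦm]
      exact integrableOn_const hΦf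
    have h0 : 0 ≤ ∫ z, (F z - lam * Φ.indicator (fun _ => (1 : ℝ)) z) *
        (F z - lam * Φ.indicator (fun _ => (1 : ℝ)) z) :=
      integral_nonneg fun z => mul_self_nonneg _
    have h1 : (fun z => (F z - lam * Φ.indicator (fun _ => (1 : ℝ)) z) *
        (F z - lam * Φ.indicator (fun _ => (1 : ℝ)) z)) = fun z => (F z * F z -
          2 * lam * Φ.indicator F z) + lam ^ 2 * Φ.indicator (fun _ => (1 : ℝ)) z := by
      funext z
      by_cases hz : z ∈ Φ
      · rw [indicator_of_mem hz, indicator_of_mem hz]; ring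
      · rw [indicator_of_notMem hz, indicator_of_notMem hz]; ring
    have i3 : Integrable (fun z => F z * F z - 2 * lam * Φ.indicator F z) :=
      hF2i.sub (i1.const_mul _)
    have i4 : Integrable (fun z => lam ^ 2 * Φ.indicator (fun _ => (1 : ℝ)) z) := i2.const_mul _
    rw [h1, integral_add i3 i4, integral_sub hF2i (i1.const_mul _), integral_const_mul,
      integral_const_mul, integral_indicator hΦm, integral_indicator hΦm, setIntegral_const,
      smul_eq_mul, mul_one] at h0
    rw [← hAdef] at h0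
    exact h0
  have hlamV : lam * (2 * (Y + κ)) = A := by
    rw [hlam]; field_simp
  have h2 : lam ^ 2 * (volume Φ).toReal ≤ lam * A := by
    calc lam ^ 2 * (volume Φ).toReal ≤ lam ^ 2 * (2 * (Y + κ)) :=
          mul_le_mul_of_nonneg_left hΦv (sq_nonneg _)
      _ = lam * A := by rw [← hlamV]; ring
  have h3 : lam * A ≤ ∫ z, F z * F z := by linarith
  refine le_trans ?_ h3
  rw [hlam, div_mul_eq_mul_div, div_mul_eq_mul_div, div_le_div_iff_of_pos_right hV]
  have h4 : (2 / 3 * (Q.card : ℝ)) ^ 2 ≤ A ^ 2 := by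
    exact pow_le_pow_left₀ (by positivity) hA 2
  nlinarith [h4]

theorem dua (_ : PsiStmt) : DuaStmt := d_ua

end Pool.Agent.CRT.H34
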